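import Pool.Agent.helper96.LK.SpecH

/-! # Project lk, module NI: the parameters are never integers (helper82) -/

open Finset Filter Polynomial

namespace Pool.Agent.LK

theorem NI_reg {a dl : ℤ} (ha : 11 ≤ a) (h0 : 0 ≤ dl) (h1 : dl ≤ 1) {P : Pt} (hP : P ∈ BB a dl) :
    Reg a P ∧ ¬(P.1 = 1 ∧ P.2 = 1) := by
  rw [mem_BB ha h0 h1] at hP
  simp only [isB, isS, isT, isU, isW, isV, isQ] at hP
  unfold Reg
  constructor
  · omega
  · omega

theorem NI_int (hBU : BU_stmt) {a dl : ℤ} (ha : 11 ≤ a) (h0 : 0 ≤ dl) (h1 : dl ≤ 1) {P : Pt}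
    (hP : P ∈ BB a dl) (m n : ℤ) (hm : mu a P = m) (hn : nu a P = n) : False := by
  have hpt := pt_eq (show (2 : ℤ) ≤ a by omega) P
  rw [hm, hn] at hpt
  have e1 : P.1 - 1 = m * a + n := by exact_mod_cast hpt.1
  have e2 : P.2 - 1 = m + n * a := by exact_mod_cast hpt.2
  obtain ⟨hR, hne⟩ := NI_reg ha h0 h1 hP
  have hR1 : Reg a ((1 : ℤ), (1 : ℤ)) := by
    left
    simp only
    omega
  have h := hBU a ha (1, 1) P (m, n) hR1 hR (by
    rw [shift]
    apply Prod.ext
    · simp only; linarith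
    · simp only; linarith)
  have hm0 : m = 0 := congrArg Prod.fst h
  have hn0 : n = 0 := congrArg Prod.snd h
  subst hm0
  subst hn0
  exact hne ⟨by linarith, by linarith⟩

theorem NI (hBU : BU_stmt) : NI_stmt := by
  intro a dl ha h0 h1 P hP o z
  have ha2 : (2 : ℤ) ≤ a := by omega
  have hpt := pt_eq ha2 P
  constructor
  · intro h
    rw [xx_shift ha2, xx] at h
    have hm : mu a P = ((2 - 2 * z - o.1 : ℤ) : ℚ) := by
      push_cast
      linarith
    have hn : nu a P = ((P.1 - 1 - (2 - 2 * z - o.1) * a : ℤ) : ℚ) := by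
      have := hpt.1
      rw [hm] at this
      push_cast at this ⊢
      linarith
    exact NI_int hBU ha h0 h1 hP _ _ hm hn
  · intro h
    rw [yy_shift ha2, yy] at h
    have hn : nu a P = ((1 - o.2 - z : ℤ) : ℚ) := by
      push_cast
      linarith
    have hm : mu a P = ((P.2 - 1 - (1 - o.2 - z) * a : ℤ) : ℚ) := by
      have := hpt.2
      rw [hn] at this
      push_cast at this ⊢
      linarith
    exact NI_int hBU ha h0 h1 hP _ _ hm hn

end Pool.Agent.LK
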